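import Mathlib
import Pool.Agent.W545.Man.Defs
set_option autoImplicit false
open Set Filter Topology Metric
open scoped Manifold ContDiff InnerProductSpace

/-!
The closed hemisphere of dimension `d + 1` as a smooth manifold with boundary, with two
stereographic charts.
-/

namespace Pool.Agent.Y499.Stek

/-- Euclidean space of dimension `d + 1` -/
abbrev EE (d : ℕ) := EuclideanSpace ℝ (Fin (d + 1))

/-- the closed hemisphere of dimension `d + 1`: the points `(p, t)` of `ℝ^(d+1) × ℝ` with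
`|p|² + t² = 1` and `p₀ ≥ 0` -/
def Hemi (d : ℕ) : Type := {q : EE d × ℝ // ‖q.1‖ ^ 2 + q.2 ^ 2 = 1 ∧ 0 ≤ q.1 0}

noncomputable instance (d : ℕ) : TopologicalSpace (Hemi d) :=
  inferInstanceAs (TopologicalSpace {q : EE d × ℝ // ‖q.1‖ ^ 2 + q.2 ^ 2 = 1 ∧ 0 ≤ q.1 0})

instance (d : ℕ) : T2Space (Hemi d) :=
  inferInstanceAs (T2Space {q : EE d × ℝ // ‖q.1‖ ^ 2 + q.2 ^ 2 = 1 ∧ 0 ≤ q.1 0})

variable {d : ℕ}

theorem coord_cont (i : Fin (d + 1)) : Continuous fun p : EE d => p i := by fun_prop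

instance : CompactSpace (Hemi d) := by
  have hc : IsClosed {q : EE d × ℝ | ‖q.1‖ ^ 2 + q.2 ^ 2 = 1 ∧ 0 ≤ q.1 0} := by
    apply IsClosed.inter
    · exact isClosed_eq ((continuous_fst.norm.pow 2).add (continuous_snd.pow 2)) continuous_const
    · exact isClosed_le continuous_const ((coord_cont 0).comp continuous_fst)
  have hb : Bornology.IsBounded {q : EE d × ℝ | ‖q.1‖ ^ 2 + q.2 ^ 2 = 1 ∧ 0 ≤ q.1 0} := by
    refine (isBounded_closedBall (x := (0 : EE d × ℝ)) (r := 1)).subset ?_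
    rintro ⟨p, t⟩ ⟨h1, -⟩
    simp only at h1
    rw [mem_closedBall_zero_iff, Prod.norm_def, max_le_iff]
    constructor
    · exact (sq_le_one_iff₀ (norm_nonneg _)).1 (by nlinarith [sq_nonneg t])
    · rw [Real.norm_eq_abs]
      exact (sq_le_one_iff_abs_le_one t).1 (by nlinarith [sq_nonneg ‖p‖])
  exact isCompact_iff_compactSpace.1 (isCompact_of_isClosed_isBounded hc hb)

theorem st_le {s t : ℝ} (hs : s ^ 2 = 1) (ht : t ^ 2 ≤ 1) : s * t ≤ 1 := by
  nlinarith [sq_nonneg (s - t)]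

/-- the stereographic chart from the point `(0, s)`, `s = 1` or `s = -1` -/
noncomputable def chart (d : ℕ) (s : ℝ) (hs : s ^ 2 = 1) :
    OpenPartialHomeomorph (Hemi d) (EuclideanHalfSpace (d + 1)) where
  toFun q := ⟨(1 - s * q.1.2)⁻¹ • q.1.1, by
    have h1 : s * q.1.2 ≤ 1 := st_le hs (by nlinarith [q.2.1, sq_nonneg ‖q.1.1‖])
    have h2 : 0 ≤ (1 - s * q.1.2)⁻¹ := inv_nonneg.2 (by linarith)
    simpa using mul_nonneg h2 q.2.2⟩
  invFun y := ⟨((2 / (‖y.1‖ ^ 2 + 1)) • y.1, s * ((‖y.1‖ ^ 2 - 1) / (‖y.1‖ ^ 2 + 1))), by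
    have h1 : (0 : ℝ) < ‖y.1‖ ^ 2 + 1 := by positivity
    constructor
    · simp only
      rw [norm_smul, mul_pow, Real.norm_eq_abs, sq_abs, mul_pow, hs]
      field_simp
      ring
    · have := y.2
      simp only [PiLp.smul_apply, smul_eq_mul]
      positivity⟩
  source := {q | s * q.1.2 ≠ 1}
  target := univ
  map_source' _ _ := mem_univ _
  map_target' y _ := by
    have h1 : (0 : ℝ) < ‖y.1‖ ^ 2 + 1 := by positivity
    show s * (s * ((‖y.1‖ ^ 2 - 1) / (‖y.1‖ ^ 2 + 1))) ≠ 1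
    rw [← mul_assoc, ← sq, hs, one_mul, ne_eq, div_eq_one_iff_eq h1.ne']
    linarith
  left_inv' := by
    rintro ⟨⟨p, t⟩, h, h0⟩ hq
    have hq' : s * t ≠ 1 := hq
    simp only at h
    have h1 : 1 - s * t ≠ 0 := sub_ne_zero.2 (Ne.symm hq')
    have hn : ‖(1 - s * t)⁻¹ • p‖ ^ 2 = (1 + s * t) / (1 - s * t) := by
      rw [norm_smul, mul_pow, Real.norm_eq_abs, sq_abs]
      have : ‖p‖ ^ 2 = (1 - s * t) * (1 + s * t) := by
        have : (s * t) ^ 2 = t ^ 2 := by rw [mul_pow, hs, one_mul]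
        linarith
      rw [this]
      field_simp
    have hn1 : ‖(1 - s * t)⁻¹ • p‖ ^ 2 + 1 = 2 / (1 - s * t) := by
      rw [hn]; field_simp; ring
    have hn2 : ‖(1 - s * t)⁻¹ • p‖ ^ 2 - 1 = 2 * (s * t) / (1 - s * t) := by
      rw [hn]; field_simp; ring
    apply Subtype.ext
    apply Prod.ext
    · show (2 / (‖(1 - s * t)⁻¹ • p‖ ^ 2 + 1)) • (1 - s * t)⁻¹ • p = p
      rw [hn1, smul_smul]
      have : 2 / (2 / (1 - s * t)) * (1 - s * t)⁻¹ = 1 := by field_simp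
      rw [this, one_smul]
    · show s * ((‖(1 - s * t)⁻¹ • p‖ ^ 2 - 1) / (‖(1 - s * t)⁻¹ • p‖ ^ 2 + 1)) = t
      rw [hn1, hn2]
      have : 2 * (s * t) / (1 - s * t) / (2 / (1 - s * t)) = s * t := by field_simp
      rw [this, ← mul_assoc, ← sq, hs, one_mul]
  right_inv' := by
    rintro ⟨y, hy⟩ -
    have h1 : (0 : ℝ) < ‖y‖ ^ 2 + 1 := by positivity
    apply Subtype.ext
    show (1 - s * (s * ((‖y‖ ^ 2 - 1) / (‖y‖ ^ 2 + 1))))⁻¹ • (2 / (‖y‖ ^ 2 + 1)) • y = y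
    rw [← mul_assoc, ← sq, hs, one_mul, smul_smul]
    have : (1 - (‖y‖ ^ 2 - 1) / (‖y‖ ^ 2 + 1))⁻¹ * (2 / (‖y‖ ^ 2 + 1)) = 1 := by
      have : 1 - (‖y‖ ^ 2 - 1) / (‖y‖ ^ 2 + 1) = 2 / (‖y‖ ^ 2 + 1) := by field_simp; ring
      rw [this]
      exact inv_mul_cancel₀ (by positivity)
    rw [this, one_smul]
  open_source := by
    have : Continuous fun q : Hemi d => s * q.1.2 :=
      continuous_const.mul (continuous_snd.comp continuous_subtype_val)
    exact isOpen_ne_fun this continuous_const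
  open_target := isOpen_univ
  continuousOn_toFun := by
    have h2 : Continuous fun q : Hemi d => q.1.2 := continuous_snd.comp continuous_subtype_val
    have h1 : Continuous fun q : Hemi d => q.1.1 := continuous_fst.comp continuous_subtype_val
    have hi : Topology.IsInducing (Subtype.val : EuclideanHalfSpace (d + 1) → EE d) :=
      Topology.IsInducing.subtypeVal
    refine hi.continuousOn_iff.2 ?_
    have h3 : ContinuousOn (fun q : Hemi d => (1 - s * q.1.2)⁻¹) {q | s * q.1.2 ≠ 1} :=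
      ContinuousOn.inv₀ (continuous_const.sub (continuous_const.mul h2)).continuousOn
        fun q hq => sub_ne_zero.2 (Ne.symm hq)
    exact ContinuousOn.smul h3 h1.continuousOn
  continuousOn_invFun := by
    have h1 : Continuous fun y : EuclideanHalfSpace (d + 1) => y.1 := continuous_subtype_val
    refine Continuous.continuousOn (Continuous.subtype_mk ?_ _)
    have h2 : ∀ y : EuclideanHalfSpace (d + 1), ‖y.1‖ ^ 2 + 1 ≠ 0 := fun y => by positivity
    refine Continuous.prodMk ?_ ?_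
    · exact (continuous_const.div ((h1.norm.pow 2).add continuous_const) h2).smul h1
    · exact continuous_const.mul (((h1.norm.pow 2).sub continuous_const).div
        ((h1.norm.pow 2).add continuous_const) h2)

/-- the sign of the preferred chart at a point -/
noncomputable def sg (q : Hemi d) : ℝ := if q.1.2 ≤ 0 then 1 else -1

theorem sg_sq (q : Hemi d) : sg q ^ 2 = 1 := by
  unfold sg; split_ifs <;> norm_num

theorem sg_mem (q : Hemi d) : sg q * q.1.2 ≠ 1 := by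
  unfold sg
  split_ifs with h
  · rw [one_mul]; linarith
  · push Not at h
    have : (-1 : ℝ) * q.1.2 < 1 := by linarith
    exact this.ne

noncomputable instance : ChartedSpace (EuclideanHalfSpace (d + 1)) (Hemi d) where
  atlas := {e | ∃ (s : ℝ) (hs : s ^ 2 = 1), e = chart d s hs}
  chartAt q := chart d (sg q) (sg_sq q)
  mem_chart_source q := sg_mem q
  chart_mem_atlas q := ⟨_, sg_sq q, rfl⟩

/-- the change of charts -/
noncomputable def trans (s s' : ℝ) (y : EE d) : EE d :=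
  (1 - s' * (s * ((‖y‖ ^ 2 - 1) / (‖y‖ ^ 2 + 1))))⁻¹ • (2 / (‖y‖ ^ 2 + 1)) • y

theorem trans_eq (s s' : ℝ) (hs : s ^ 2 = 1) (hs' : s' ^ 2 = 1) {y : EE d} (hy : 0 ≤ y 0) :
    (𝓡∂ (d + 1)) (chart d s' hs' ((chart d s hs).symm ((𝓡∂ (d + 1)).symm y))) = trans s s' y := by
  have : (𝓡∂ (d + 1)).symm y = ⟨y, hy⟩ := by
    apply Subtype.ext
    exact (𝓡∂ (d + 1)).right_inv (by rw [range_modelWithCornersEuclideanHalfSpace]; exact hy)
  rw [this]
  rfl

theorem trans_same (s : ℝ) (hs : s ^ 2 = 1) (y : EE d) : trans s s y = y := by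
  have h1 : (0 : ℝ) < ‖y‖ ^ 2 + 1 := by positivity
  unfold trans
  rw [← mul_assoc, ← sq, hs, one_mul, smul_smul]
  have : 1 - (‖y‖ ^ 2 - 1) / (‖y‖ ^ 2 + 1) = 2 / (‖y‖ ^ 2 + 1) := by field_simp; ring
  rw [this, inv_mul_cancel₀ (by positivity), one_smul]

theorem trans_neg (s s' : ℝ) (hs : s' * s = -1) (y : EE d) :
    trans s s' y = (‖y‖ ^ 2)⁻¹ • y := by
  have h1 : (0 : ℝ) < ‖y‖ ^ 2 + 1 := by positivity
  unfold trans
  rw [← mul_assoc, hs, smul_smul]
  rcases eq_or_ne y 0 with rfl | hy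
  · simp
  have h2 : 0 < ‖y‖ ^ 2 := by positivity
  congr 1
  have : 1 - -1 * ((‖y‖ ^ 2 - 1) / (‖y‖ ^ 2 + 1)) = 2 * ‖y‖ ^ 2 / (‖y‖ ^ 2 + 1) := by
    field_simp; ring
  rw [this]
  field_simp

theorem sq_cases {s s' : ℝ} (hs : s ^ 2 = 1) (hs' : s' ^ 2 = 1) : s' = s ∨ s' * s = -1 := by
  rcases sq_eq_sq_iff_eq_or_eq_neg.1 (hs'.trans hs.symm) with h | h
  · exact Or.inl h
  · right
    rw [h]
    nlinarith

theorem trans_smooth (s s' : ℝ) :
    ContDiffOn ℝ ∞ (trans (d := d) s s')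
      {y | s' * (s * ((‖y‖ ^ 2 - 1) / (‖y‖ ^ 2 + 1))) ≠ 1} := by
  intro y hy
  apply ContDiffAt.contDiffWithinAt
  have hy' : 1 - s' * (s * ((‖y‖ ^ 2 - 1) / (‖y‖ ^ 2 + 1))) ≠ 0 := sub_ne_zero.2 (Ne.symm hy)
  have h1 : ‖y‖ ^ 2 + 1 ≠ 0 := by positivity
  have hn : ContDiffAt ℝ ∞ (fun y : EE d => ‖y‖ ^ 2) y := (contDiff_norm_sq ℝ (E := EE d)).contDiffAt
  have hn1 : ContDiffAt ℝ ∞ (fun y : EE d => ‖y‖ ^ 2 + 1) y := hn.add contDiffAt_const
  have h2 : ContDiffAt ℝ ∞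
      (fun y : EE d => 1 - s' * (s * ((‖y‖ ^ 2 - 1) / (‖y‖ ^ 2 + 1)))) y :=
    contDiffAt_const.sub (contDiffAt_const.mul (contDiffAt_const.mul
      ((hn.sub contDiffAt_const).div hn1 h1)))
  have h3 : ContDiffAt ℝ ∞
      (fun y : EE d => (1 - s' * (s * ((‖y‖ ^ 2 - 1) / (‖y‖ ^ 2 + 1))))⁻¹) y := h2.inv hy'
  have h4 : ContDiffAt ℝ ∞ (fun y : EE d => 2 / (‖y‖ ^ 2 + 1)) y :=
    contDiffAt_const.div hn1 h1
  have h5 : ContDiffAt ℝ ∞ (fun y : EE d => y) y := contDiffAt_id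
  exact h3.smul (h4.smul h5)

instance : IsManifold (𝓡∂ (d + 1)) ∞ (Hemi d) := by
  apply isManifold_of_contDiffOn
  rintro e e' ⟨s, hs, rfl⟩ ⟨s', hs', rfl⟩
  have key : ∀ y ∈ (𝓡∂ (d + 1)).symm ⁻¹' ((chart d s hs).symm.trans (chart d s' hs')).source ∩
      range (𝓡∂ (d + 1)), 0 ≤ y 0 ∧ s' * (s * ((‖y‖ ^ 2 - 1) / (‖y‖ ^ 2 + 1))) ≠ 1 := by
    rintro y ⟨hy1, hy2⟩
    rw [range_modelWithCornersEuclideanHalfSpace] at hy2
    have hy3 : 0 ≤ y 0 := hy2
    refine ⟨hy3, ?_⟩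
    have : (𝓡∂ (d + 1)).symm y = ⟨y, hy3⟩ := by
      apply Subtype.ext
      exact (𝓡∂ (d + 1)).right_inv (by rw [range_modelWithCornersEuclideanHalfSpace]; exact hy3)
    rw [mem_preimage, this] at hy1
    exact hy1.2
  refine ((trans_smooth s s').mono fun y hy => (key y hy).2).congr fun y hy => ?_
  exact trans_eq s s' hs hs' (key y hy).1

theorem extChartAt_coe (c : Hemi d) (q : Hemi d) :
    extChartAt (𝓡∂ (d + 1)) c q = (1 - sg c * q.1.2)⁻¹ • q.1.1 := rfl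

theorem mem_boundary (q : Hemi d) : q ∈ (𝓡∂ (d + 1)).boundary (Hemi d) ↔ q.1.1 0 = 0 := by
  rw [ModelWithCorners.boundary, mem_ofPred_eq, ModelWithCorners.isBoundaryPoint_iff,
    frontier_range_modelWithCornersEuclideanHalfSpace, mem_ofPred_eq, extChartAt_coe]
  have h : 1 - sg q * q.1.2 ≠ 0 := sub_ne_zero.2 (Ne.symm (sg_mem q))
  rw [PiLp.smul_apply, smul_eq_mul, eq_comm, mul_eq_zero]
  simp [h]


theorem norm_sq_cons (t : ℝ) (u : EuclideanSpace ℝ (Fin d)) :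
    ‖(WithLp.toLp 2 (Fin.cons t u.ofLp) : EE d)‖ ^ 2 = t ^ 2 + ‖u‖ ^ 2 := by
  rw [EuclideanSpace.norm_sq_eq, EuclideanSpace.norm_sq_eq, Fin.sum_univ_succ]
  simp

/-- the point of the hemisphere given by a point of the boundary sphere -/
noncomputable def ofSphere (u : EuclideanSpace ℝ (Fin (d + 1))) (hu : u ∈ sphere (0 : EE d) 1) :
    Hemi d :=
  ⟨(WithLp.toLp 2 (Fin.cons 0 fun i : Fin d => u i.castSucc), u (Fin.last d)), by
    have h := norm_sq_cons (d := d) 0 (WithLp.toLp 2 fun i : Fin d => u i.castSucc)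
    have h2 : ‖u‖ ^ 2 = ‖(WithLp.toLp 2 fun i : Fin d => u i.castSucc : EuclideanSpace ℝ (Fin d))‖ ^ 2 +
        u (Fin.last d) ^ 2 := by
      rw [EuclideanSpace.norm_sq_eq, EuclideanSpace.norm_sq_eq, Fin.sum_univ_castSucc]
      simp
    have h3 : ‖u‖ = 1 := by simpa using hu
    constructor
    · simp only at h ⊢
      rw [h]
      rw [h3] at h2
      linarith
    · simp⟩

theorem bdry_conn (hd : 1 ≤ d) : IsConnected ((𝓡∂ (d + 1)).boundary (Hemi d)) := by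
  have hr : 1 < Module.rank ℝ (EuclideanSpace ℝ (Fin (d + 1))) := by
    rw [rank_eq_card_basis (EuclideanSpace.basisFun (Fin (d + 1)) ℝ).toBasis]
    simp only [Fintype.card_fin]
    exact_mod_cast (by omega : 1 < d + 1)
  have hS := isConnected_sphere hr (0 : EuclideanSpace ℝ (Fin (d + 1))) (r := 1) zero_le_one
  have := isConnected_iff_connectedSpace.1 hS
  have hc : Continuous fun u : sphere (0 : EE d) 1 => ofSphere u.1 u.2 := by
    refine Continuous.subtype_mk ?_ _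
    refine Continuous.prodMk ?_ ?_
    · refine (PiLp.continuous_toLp 2 _).comp (continuous_pi fun i => ?_)
      refine Fin.cases ?_ (fun j => ?_) i
      · exact continuous_const
      · exact (coord_cont _).comp continuous_subtype_val
    · exact (coord_cont _).comp continuous_subtype_val
  have hrange : (𝓡∂ (d + 1)).boundary (Hemi d) =
      range fun u : sphere (0 : EE d) 1 => ofSphere u.1 u.2 := by
    ext q
    rw [mem_boundary]
    constructor
    · intro hq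
      have h1 := norm_sq_cons (d := d) 0 (WithLp.toLp 2 fun i : Fin d => q.1.1 i.succ)
      have h2 : ‖q.1.1‖ ^ 2 =
          ‖(WithLp.toLp 2 fun i : Fin d => q.1.1 i.succ : EuclideanSpace ℝ (Fin d))‖ ^ 2 := by
        rw [EuclideanSpace.norm_sq_eq, EuclideanSpace.norm_sq_eq, Fin.sum_univ_succ, hq]
        simp
      have h3 : (WithLp.toLp 2 (Fin.snoc (fun i : Fin d => q.1.1 i.succ) q.1.2) : EE d) ∈
          sphere (0 : EE d) 1 := by
        have h4 := q.2.1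
        rw [h2, EuclideanSpace.norm_sq_eq] at h4
        rw [mem_sphere_zero_iff_norm, ← sq_eq_sq₀ (norm_nonneg _) zero_le_one, one_pow,
          EuclideanSpace.norm_sq_eq, Fin.sum_univ_castSucc]
        simpa using h4
      refine ⟨⟨_, h3⟩, ?_⟩
      apply Subtype.ext
      apply Prod.ext
      · ext i
        refine Fin.cases ?_ (fun j => ?_) i
        · simp [ofSphere, hq]
        · simp [ofSphere]
      · simp [ofSphere]
    · rintro ⟨u, rfl⟩
      simp [ofSphere]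
  rw [hrange]
  exact isConnected_range hc

theorem source_conn (s : ℝ) (hs : s ^ 2 = 1) : IsConnected (chart d s hs).source := by
  have h1 : IsConnected {x : EuclideanSpace ℝ (Fin (d + 1)) | 0 ≤ x 0} :=
    ⟨⟨0, by simp⟩, (EuclideanHalfSpace.convex (n := d + 1)).isPreconnected⟩
  have h2 : ConnectedSpace (EuclideanHalfSpace (d + 1)) := isConnected_iff_connectedSpace.1 h1
  rw [← (chart d s hs).symm_image_target_eq_source]
  exact isConnected_univ.image _ (chart d s hs).continuousOn_symm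

instance : ConnectedSpace (Hemi d) := by
  have h1 : (1 : ℝ) ^ 2 = 1 := by norm_num
  have h2 : (-1 : ℝ) ^ 2 = 1 := by norm_num
  obtain ⟨y⟩ : Nonempty (EuclideanHalfSpace (d + 1)) := ⟨⟨EuclideanSpace.single 0 1, by simp⟩⟩
  have hpt : ∃ q : Hemi d, q.1.2 = 0 := by
    refine ⟨⟨(EuclideanSpace.single 0 1, 0), ?_, ?_⟩, rfl⟩ <;> simp
  obtain ⟨q, hq⟩ := hpt
  have hu := IsConnected.union ⟨q, by show 1 * q.1.2 ≠ 1; rw [hq]; norm_num,
    by show -1 * q.1.2 ≠ 1; rw [hq]; norm_num⟩ (source_conn (d := d) 1 h1) (source_conn (-1) h2)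
  refine connectedSpace_iff_univ.2 ?_
  convert hu
  symm
  rw [eq_univ_iff_forall]
  intro z
  by_cases h : (1 : ℝ) * z.1.2 ≠ 1
  · exact Or.inl h
  · right
    show (-1 : ℝ) * z.1.2 ≠ 1
    push Not at h
    linarith

theorem inner_fderivWithin_trans {s s' : ℝ} (hs : s ^ 2 = 1) (hs' : s' ^ 2 = 1) {y : EE d}
    (hy0 : 0 ≤ y 0) (hy : s' * (s * ((‖y‖ ^ 2 - 1) / (‖y‖ ^ 2 + 1))) ≠ 1) (v w : EE d) :
    ⟪fderivWithin ℝ (trans (d := d) s s') (range (𝓡∂ (d + 1))) y v,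
      fderivWithin ℝ (trans (d := d) s s') (range (𝓡∂ (d + 1))) y w⟫_ℝ =
      (2 / (‖y‖ ^ 2 + 1) / (1 - s' * (s * ((‖y‖ ^ 2 - 1) / (‖y‖ ^ 2 + 1))))) ^ 2 * ⟪v, w⟫_ℝ := by
  have hu : UniqueDiffWithinAt ℝ (range (𝓡∂ (d + 1))) y :=
    (𝓡∂ (d + 1)).uniqueDiffOn y (by rw [range_modelWithCornersEuclideanHalfSpace]; exact hy0)
  have h1 : (0 : ℝ) < ‖y‖ ^ 2 + 1 := by positivity
  rcases sq_cases hs hs' with rfl | h
  · have h2 : trans (d := d) s' s' = id := funext fun y => trans_same s' hs y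
    rw [h2, fderivWithin_id hu]
    rw [← mul_assoc, ← sq, hs, one_mul]
    have : 2 / (‖y‖ ^ 2 + 1) / (1 - (‖y‖ ^ 2 - 1) / (‖y‖ ^ 2 + 1)) = 1 := by
      have : 1 - (‖y‖ ^ 2 - 1) / (‖y‖ ^ 2 + 1) = 2 / (‖y‖ ^ 2 + 1) := by field_simp; ring
      rw [this]
      exact div_self (by positivity)
    rw [this, one_pow, one_mul]
    rfl
  · have hy1 : y ≠ 0 := by
      rintro rfl
      apply hy
      rw [← mul_assoc, h]
      simp
    have h3 : 0 < ‖y‖ ^ 2 := by positivity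
    have h2 : trans (d := d) s s' = EuclideanGeometry.inversion 0 1 := by
      funext z
      rw [trans_neg s s' h z, EuclideanGeometry.inversion]
      simp
    rw [h2, ((EuclideanGeometry.hasFDerivAt_inversion hy1).hasFDerivWithinAt).fderivWithin hu]
    have h4 : 2 / (‖y‖ ^ 2 + 1) / (1 - s' * (s * ((‖y‖ ^ 2 - 1) / (‖y‖ ^ 2 + 1)))) =
        (1 / ‖y‖) ^ 2 := by
      rw [← mul_assoc, h]
      have : 1 - -1 * ((‖y‖ ^ 2 - 1) / (‖y‖ ^ 2 + 1)) = 2 * ‖y‖ ^ 2 / (‖y‖ ^ 2 + 1) := by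
        field_simp; ring
      rw [this]
      field_simp
    rw [h4, dist_zero_right]
    simp only [smul_apply, inner_smul_left, inner_smul_right]
    have h5 := (ℝ ∙ (y - 0))ᗮ.reflection.inner_map_map v w
    have h6 : ⟪((ℝ ∙ (y - 0))ᗮ.reflection : EE d →L[ℝ] EE d) v,
        ((ℝ ∙ (y - 0))ᗮ.reflection : EE d →L[ℝ] EE d) w⟫_ℝ = ⟪v, w⟫_ℝ := h5
    rw [h6]
    simp
    ring

theorem tcc_eq (c z : Hemi d) :
    tangentCoordChange (𝓡∂ (d + 1)) c z z =
      fderivWithin ℝ (trans (d := d) (sg c) (sg z)) (range (𝓡∂ (d + 1)))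
        (extChartAt (𝓡∂ (d + 1)) c z) := by
  rw [tangentCoordChange_def]
  have h0 : 0 ≤ (extChartAt (𝓡∂ (d + 1)) c z) 0 := (chart d (sg c) (sg_sq c) z).2
  apply fderivWithin_congr
  · intro y hy
    rw [range_modelWithCornersEuclideanHalfSpace] at hy
    exact trans_eq (sg c) (sg z) (sg_sq c) (sg_sq z) hy
  · exact trans_eq (sg c) (sg z) (sg_sq c) (sg_sq z) h0

/-- the round metric of the hemisphere -/
noncomputable def round (d : ℕ) : Pool.Agent.W545.Man.RMetric d (Hemi d) where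
  inner z := ((1 - sg z * z.1.2) ^ 2 • innerSL ℝ (E := EE d) : EE d →L[ℝ] EE d →L[ℝ] ℝ)
  symm z v w := by
    show (1 - sg z * z.1.2) ^ 2 * @inner ℝ (EE d) _ v w =
      (1 - sg z * z.1.2) ^ 2 * @inner ℝ (EE d) _ w v
    exact congrArg _ (real_inner_comm (F := EE d) w v)
  pos z v hv := by
    show 0 < (1 - sg z * z.1.2) ^ 2 * @inner ℝ (EE d) _ v v
    have h : 1 - sg z * z.1.2 ≠ 0 := sub_ne_zero.2 (Ne.symm (sg_mem z))
    have h2 : 0 < @inner ℝ (EE d) _ v v := real_inner_self_pos.2 hv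
    positivity
  smooth c v w := by
    have key : ∀ y ∈ (extChartAt (𝓡∂ (d + 1)) c).target,
        Pool.Agent.W545.Man.coeff (fun z : Hemi d =>
          ((1 - sg z * z.1.2) ^ 2 • innerSL ℝ (E := EE d) : EE d →L[ℝ] EE d →L[ℝ] ℝ)) c
          ((extChartAt (𝓡∂ (d + 1)) c).symm y) v w = (2 / (‖y‖ ^ 2 + 1)) ^ 2 * ⟪v, w⟫_ℝ := by
      intro y hy
      set z := (extChartAt (𝓡∂ (d + 1)) c).symm y with hz
      have hyz : extChartAt (𝓡∂ (d + 1)) c z = y := (extChartAt _ c).right_inv hy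
      have hy0 : 0 ≤ y 0 := by rw [← hyz]; exact (chart d (sg c) (sg_sq c) z).2
      have hz2 : z.1.2 = sg c * ((‖y‖ ^ 2 - 1) / (‖y‖ ^ 2 + 1)) := by
        have h7 : (𝓡∂ (d + 1)).symm y = ⟨y, hy0⟩ := by
          apply Subtype.ext
          exact (𝓡∂ (d + 1)).right_inv (by rw [range_modelWithCornersEuclideanHalfSpace]; exact hy0)
        have h8 : z = (chart d (sg c) (sg_sq c)).symm ⟨y, hy0⟩ := by rw [← h7]; rfl
        rw [h8]
        rfl
      have hzz := sg_mem z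
      show (1 - sg z * z.1.2) ^ 2 * ⟪tangentCoordChange (𝓡∂ (d + 1)) c z z v,
        tangentCoordChange (𝓡∂ (d + 1)) c z z w⟫_ℝ = _
      have hne : sg z * (sg c * ((‖y‖ ^ 2 - 1) / (‖y‖ ^ 2 + 1))) ≠ 1 := by rw [← hz2]; exact hzz
      rw [tcc_eq c z, hyz, inner_fderivWithin_trans (sg_sq c) (sg_sq z) hy0 hne v w, ← hz2]
      have h : 1 - sg z * z.1.2 ≠ 0 := sub_ne_zero.2 (Ne.symm (sg_mem z))
      field_simp
    refine ContDiffOn.congr ?_ key
    apply ContDiff.contDiffOn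
    have h1 : ∀ y : EE d, ‖y‖ ^ 2 + 1 ≠ 0 := fun y => by positivity
    have h2 : ContDiff ℝ ∞ (fun y : EE d => ‖y‖ ^ 2 + 1) := (contDiff_norm_sq ℝ).add contDiff_const
    exact ((contDiff_const.div h2 h1).pow 2).mul contDiff_const

end Pool.Agent.Y499.Stek
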