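import Mathlib
import Pool.Agent.W722.St.Limit
import Pool.Agent.W545.Man.Bdry
import Pool.Agent.W545.Man.Conf
set_option autoImplicit false
open Set Filter Topology MeasureTheory Metric
open scoped ENNReal Manifold ContDiff
open Pool.Agent.W545.Man

/-!
Large first Steklov eigenvalue with fixed boundary metric and volume tending to zero.

The metrics of `Pool.Agent.W722.St.Final` have first Steklov eigenvalue at least `1 / (C δ)` and
volume at most `C / δ`. They are multiplied by a conformal factor which is `1` near the boundary,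
`≥ lam` everywhere and equal to `lam` outside a set of small volume; here `δ = lam ^ d`.
-/

namespace Pool.Agent.Y499.Stek

variable {d : ℕ} {Ω : Type*} [TopologicalSpace Ω] [ChartedSpace (EuclideanHalfSpace (d + 1)) Ω]
  [IsManifold (𝓡∂ (d + 1)) ∞ Ω] [MeasurableSpace Ω] [BorelSpace Ω] [T2Space Ω] [CompactSpace Ω]

/-- a conformal factor which is `1` near the boundary, at least `lam` everywhere, at most `1`, and
equal to `lam` outside a set of small volume -/
theorem exists_factor {g : RMetric d Ω} {μ : Measure Ω} (hμ : IsVolume g μ) {lam : ℝ}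
    (h0 : 0 < lam) (h1 : lam ≤ 1) {η : ℝ≥0∞} (hη : 0 < η) :
    ∃ f : PosFun d Ω, (∀ x, lam ≤ f.1 x) ∧ (∀ x, f.1 x ≤ 1) ∧
      (∃ V : Set Ω, IsOpen V ∧ (𝓡∂ (d + 1)).boundary Ω ⊆ V ∧ ∀ x ∈ V, f.1 x = 1) ∧
      ∫⁻ x, ENNReal.ofReal (f.1 x ^ (d + 1)) ∂μ ≤
        ENNReal.ofReal (lam ^ (d + 1)) * μ univ + η := by
  obtain ⟨χ, hχ, hχ0, hχ1, hχb, O, hO, hμO, hχO⟩ := exists_cut hμ hη
  set s : Ω → ℝ := fun x => Real.smoothTransition (2 * χ x) with hs
  have hs0 : ∀ x, 0 ≤ s x := fun x => Real.smoothTransition.nonneg _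
  have hs1 : ∀ x, s x ≤ 1 := fun x => Real.smoothTransition.le_one _
  have hsm : ContMDiff (𝓡∂ (d + 1)) 𝓘(ℝ, ℝ) ∞ s := by
    have h2 : ContMDiff 𝓘(ℝ, ℝ) 𝓘(ℝ, ℝ) ∞ fun t : ℝ => Real.smoothTransition (2 * t) :=
      (Real.smoothTransition.contDiff.comp (contDiff_const.mul contDiff_id)).contMDiff
    exact h2.comp hχ
  set f : Ω → ℝ := fun x => lam + (1 - lam) * s x with hf
  have hfm : ContMDiff (𝓡∂ (d + 1)) 𝓘(ℝ, ℝ) ∞ f := by
    have h2 : ContMDiff 𝓘(ℝ, ℝ) 𝓘(ℝ, ℝ) ∞ fun t : ℝ => lam + (1 - lam) * t :=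
      (contDiff_const.add (contDiff_const.mul contDiff_id)).contMDiff
    exact h2.comp hsm
  have hfl : ∀ x, lam ≤ f x := by
    intro x
    have := mul_nonneg (sub_nonneg.2 h1) (hs0 x)
    simp only [hf]; linarith
  have hfu : ∀ x, f x ≤ 1 := by
    intro x
    have := mul_le_of_le_one_right (sub_nonneg.2 h1) (hs1 x)
    simp only [hf]; linarith
  refine ⟨mkPos f hfm fun x => h0.trans_le (hfl x), hfl, hfu, ⟨{x | 1 / 2 < χ x}, ?_, ?_, ?_⟩, ?_⟩
  · exact isOpen_lt continuous_const hχ.continuous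
  · intro x hx
    show 1 / 2 < χ x
    rw [hχb x hx]; norm_num
  · intro x hx
    have hx' : 1 / 2 < χ x := hx
    show lam + (1 - lam) * Real.smoothTransition (2 * χ x) = 1
    rw [Real.smoothTransition.one_of_one_le (by linarith)]
    ring
  · have hle : ∀ x, ENNReal.ofReal ((mkPos f hfm fun x => h0.trans_le (hfl x)).1 x ^ (d + 1)) ≤
        ENNReal.ofReal (lam ^ (d + 1)) + O.indicator (fun _ => 1) x := by
      intro x
      show ENNReal.ofReal (f x ^ (d + 1)) ≤ _
      by_cases hx : x ∈ O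
      · rw [indicator_of_mem hx]
        refine le_trans ?_ le_add_self
        rw [← ENNReal.ofReal_one]
        exact ENNReal.ofReal_le_ofReal (pow_le_one₀ (h0.le.trans (hfl x)) (hfu x))
      · have : f x = lam := by
          simp only [hf, hs]
          rw [hχO x hx, mul_zero, Real.smoothTransition.zero, mul_zero, add_zero]
        rw [this]
        exact le_self_add
    calc ∫⁻ x, ENNReal.ofReal ((mkPos f hfm fun x => h0.trans_le (hfl x)).1 x ^ (d + 1)) ∂μ
        ≤ ∫⁻ x, (ENNReal.ofReal (lam ^ (d + 1)) + O.indicator (fun _ => 1) x) ∂μ :=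
          lintegral_mono hle
      _ = ENNReal.ofReal (lam ^ (d + 1)) * μ univ + μ O := by
          rw [lintegral_add_left measurable_const, lintegral_const, lintegral_indicator hO,
            setLIntegral_one]
      _ ≤ _ := by gcongr

/-- **Main estimate.** -/
theorem shrink (hd : 2 ≤ d) (hconn : IsConnected ((𝓡∂ (d + 1)).boundary Ω))
    {g0 : RMetric d Ω} {μ0 ν : Measure Ω} (hμ0 : IsVolume g0 μ0) (hν : IsBdryVolume g0 ν) :
    ∃ C : ℝ≥0∞, C ≠ ⊤ ∧ C ≠ 0 ∧ ∀ lam : ℝ, 0 < lam → lam ≤ 1 →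
      ∃ (g : RMetric d Ω) (μ : Measure Ω), IsVolume g μ ∧ IsBdryVolume g ν ∧
      (∃ V : Set Ω, IsOpen V ∧ (𝓡∂ (d + 1)).boundary Ω ⊆ V ∧ ∀ x ∈ V, g.inner x = g0.inner x) ∧
      μ univ ≤ C * ENNReal.ofReal lam ∧ (C * ENNReal.ofReal lam)⁻¹ ≤ sigma 1 g μ ν := by
  obtain ⟨C, hC, H⟩ := Pool.Agent.W722.St.main hd hconn hμ0 hν
  have := vol_locFin hμ0
  have hM : μ0 univ ≠ ⊤ := isCompact_univ.measure_lt_top.ne
  have := bvol_locFin hν
  refine ⟨μ0 univ + C + 1, by finiteness, by simp, ?_⟩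
  intro lam h0 h1
  obtain ⟨g, μ, ⟨hv, V, hVo, hBV, hV, -⟩, hm, hu⟩ := H (lam ^ d) (by positivity)
  obtain ⟨f, hfl, hfu, ⟨W, hWo, hBW, hW⟩, hfi⟩ := exists_factor hv h0 h1
    (η := ENNReal.ofReal lam) (by simpa using h0)
  have hinner : ∀ x ∈ V ∩ W, (conf g f).inner x = g0.inner x := by
    rintro x ⟨hx1, hx2⟩
    rw [conf_inner, hW x hx2, one_pow, one_smul, hV x hx1]
  refine ⟨conf g f, μ.withDensity fun x => ENNReal.ofReal (f.1 x ^ (d + 1)), isVolume_conf hv f,
    Pool.Agent.W722.St.bdry_congr hν fun z hz => hinner z ⟨hBV hz, hBW hz⟩,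
    ⟨V ∩ W, hVo.inter hWo, subset_inter hBV hBW, hinner⟩, ?_, ?_⟩
  · rw [withDensity_apply _ MeasurableSet.univ, setLIntegral_univ]
    refine hfi.trans ?_
    have hl : ENNReal.ofReal (lam ^ (d + 1)) * ENNReal.ofReal (lam ^ d)⁻¹ = ENNReal.ofReal lam := by
      rw [← ENNReal.ofReal_mul (by positivity)]
      congr 1
      rw [pow_succ]
      field_simp
    have hl2 : ENNReal.ofReal (lam ^ (d + 1)) ≤ ENNReal.ofReal lam := by
      apply ENNReal.ofReal_le_ofReal
      rw [pow_succ]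
      exact mul_le_of_le_one_left h0.le (pow_le_one₀ h0.le h1)
    calc ENNReal.ofReal (lam ^ (d + 1)) * μ univ + ENNReal.ofReal lam
        ≤ ENNReal.ofReal (lam ^ (d + 1)) * (μ0 univ + C * ENNReal.ofReal (lam ^ d)⁻¹) +
          ENNReal.ofReal lam := by gcongr
      _ = ENNReal.ofReal (lam ^ (d + 1)) * μ0 univ +
          C * (ENNReal.ofReal (lam ^ (d + 1)) * ENNReal.ofReal (lam ^ d)⁻¹) +
          ENNReal.ofReal lam := by ring
      _ ≤ ENNReal.ofReal lam * μ0 univ + C * ENNReal.ofReal lam + ENNReal.ofReal lam := by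
          rw [hl]
          gcongr
      _ = (μ0 univ + C + 1) * ENNReal.ofReal lam := by ring
  · apply sigma_one_ge
    intro u hu'
    obtain ⟨c, hc⟩ := hu u hu'
    refine ⟨c, hc.trans ?_⟩
    have hE : ENNReal.ofReal (lam ^ (d - 1)) * energy g μ u ≤
        energy (conf g f) (μ.withDensity fun x => ENNReal.ofReal (f.1 x ^ (d + 1))) u := by
      rw [energy_conf (by omega) g f μ u]
      unfold energy
      rw [← lintegral_const_mul' _ _ ENNReal.ofReal_ne_top]
      apply lintegral_mono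
      intro x
      simp only
      gcongr
      exact hfl x
    have hl : ENNReal.ofReal (lam ^ d) = ENNReal.ofReal lam * ENNReal.ofReal (lam ^ (d - 1)) := by
      rw [← ENNReal.ofReal_mul h0.le, ← pow_succ', Nat.sub_add_cancel (by omega)]
    calc C * ENNReal.ofReal (lam ^ d) * energy g μ u
        = C * ENNReal.ofReal lam * (ENNReal.ofReal (lam ^ (d - 1)) * energy g μ u) := by
          rw [hl]; ring
      _ ≤ (μ0 univ + C + 1) * ENNReal.ofReal lam *
          energy (conf g f) (μ.withDensity fun x => ENNReal.ofReal (f.1 x ^ (d + 1))) u := by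
          gcongr
          calc C ≤ μ0 univ + C := le_add_self
            _ ≤ _ := le_self_add

end Pool.Agent.Y499.Stek
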