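import Mathlib
import Pool.Agent.Y499.Stek.Shrink
import Pool.Agent.W722.Stk.Defs
import Pool.Agent.W722.Stk.Bridge
import Pool.Agent.W749.ST.Exist
set_option autoImplicit false
open Set Filter Topology MeasureTheory
open scoped ENNReal Manifold ContDiff
open Pool.Agent.W722.Stk

/-!
The sequence of metrics with fixed boundary metric, volume tending to zero and first Steklov
eigenvalue tending to infinity.
-/

namespace Pool.Agent.Y499.Stek

theorem bvol_pos {d : ℕ} {Ω : Type*} [TopologicalSpace Ω]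
    [ChartedSpace (EuclideanHalfSpace (d + 1)) Ω] [IsManifold (𝓡∂ (d + 1)) ∞ Ω]
    [T2Space Ω] [MeasurableSpace Ω] [BorelSpace Ω]
    {g : Pool.Agent.W545.Man.RMetric d Ω} {ν : Measure Ω}
    (hν : Pool.Agent.W545.Man.IsBdryVolume g ν) (hb : (Pool.Agent.W545.Man.bd d Ω).Nonempty) :
    0 < ν univ := by
  obtain ⟨c, hc⟩ := hb
  obtain ⟨r, hr, hsub, -⟩ := Pool.Agent.W545.Man.chart_nhds (d := d) (c := c) univ_mem
  obtain ⟨a, b, ha, hb, h⟩ := Pool.Agent.W545.Man.bvol_bounds g c hsub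
    (Pool.Agent.W545.Man.halfK_compact _ r)
  have h1 := (h ν hν _ Subset.rfl (Pool.Agent.W545.Man.halfK_compact _ r) (fun _ => 1) (fun _ => 1)
    continuousOn_const (fun _ _ => rfl)).1
  rw [setLIntegral_one, setLIntegral_one] at h1
  refine lt_of_lt_of_le ?_ (h1.trans (measure_mono (subset_univ _)))
  have hc0 : (extChartAt (𝓡∂ (d + 1)) c c) 0 = 0 :=
    (Pool.Agent.W545.Man.mem_bd_iff (mem_extChartAt_source c)).1 hc
  have hball : Metric.closedBall (Pool.Agent.W545.Man.tailL d (extChartAt (𝓡∂ (d + 1)) c c)) r ⊆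
      {z : Pool.Agent.W545.Man.FF d | Pool.Agent.W545.Man.inj z ∈
        Metric.closedBall (extChartAt (𝓡∂ (d + 1)) c c) r ∩
          {y : Pool.Agent.W545.Man.EE d | 0 ≤ y 0}} := by
    intro z hz
    refine ⟨?_, ?_⟩
    · rw [Metric.mem_closedBall, dist_eq_norm] at hz ⊢
      rw [← Pool.Agent.W749.ST.inj_tail hc0, Pool.Agent.W545.Man.inj_sub,
        Pool.Agent.W545.Man.norm_inj]
      exact hz
    · exact (Pool.Agent.W545.Man.inj_zero_coord z).ge
  refine ENNReal.mul_pos (by simpa using ha) ?_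
  exact ((Metric.measure_closedBall_pos volume _ hr).trans_le (measure_mono hball)).ne'

theorem main (d : ℕ) (hd : 2 ≤ d) (Ω : Type*) [TopologicalSpace Ω]
    [ChartedSpace (EuclideanHalfSpace (d + 1)) Ω] [IsManifold (𝓡∂ (d + 1)) ∞ Ω]
    [CompactSpace Ω] [T2Space Ω] [MeasurableSpace Ω] [BorelSpace Ω]
    (hconn : IsConnected (bdry d Ω)) (g0 : RMetric d Ω) :
    ∃ (ν : Measure Ω) (g : ℕ → RMetric d Ω) (μ : ℕ → Measure Ω),
      0 < ν univ ∧ ν univ < ⊤ ∧
      (∀ n, IsVolume (g n) (μ n) ∧ IsBdryVolume (g n) ν ∧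
        ∃ V : Set Ω, IsOpen V ∧ bdry d Ω ⊆ V ∧ ∀ x ∈ V, (g n).inner x = g0.inner x) ∧
      Tendsto (fun n => μ n univ) atTop (𝓝 0) ∧
      Tendsto (fun n => sigma 1 (g n) (μ n) ν) atTop (𝓝 ⊤) := by
  obtain ⟨μ0, hμ0⟩ := Pool.Agent.W749.ST.exists_isVolume (toMan g0)
  obtain ⟨ν, hν⟩ := Pool.Agent.W749.ST.exists_isBdryVolume (toMan g0)
  obtain ⟨C, hC, hC0, H⟩ := shrink hd hconn hμ0 hν
  have hn : ∀ n : ℕ, 0 < 1 / ((n : ℝ) + 1) ∧ 1 / ((n : ℝ) + 1) ≤ 1 := by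
    intro n
    have hn : (0 : ℝ) < (n : ℝ) + 1 := by positivity
    exact ⟨by positivity, by rw [div_le_one hn]; linarith [(Nat.cast_nonneg n : (0 : ℝ) ≤ n)]⟩
  choose g μ h using fun n : ℕ => H (1 / ((n : ℝ) + 1)) (hn n).1 (hn n).2
  have := Pool.Agent.W545.Man.bvol_locFin hν
  have hlim : Tendsto (fun n : ℕ => C * ENNReal.ofReal (1 / ((n : ℝ) + 1))) atTop (𝓝 0) := by
    have h1 : Tendsto (fun n : ℕ => ENNReal.ofReal (1 / ((n : ℝ) + 1))) atTop (𝓝 0) := by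
      rw [← ENNReal.ofReal_zero]
      exact ENNReal.tendsto_ofReal tendsto_one_div_add_atTop_nhds_zero_nat
    have h2 := ENNReal.Tendsto.const_mul (a := C) h1 (Or.inr hC)
    rwa [mul_zero] at h2
  refine ⟨ν, fun n => ofMan (g n), μ, bvol_pos hν hconn.nonempty, isCompact_univ.measure_lt_top, fun n => ?_, ?_, ?_⟩
  · obtain ⟨h1, h2, ⟨V, hVo, hBV, hV⟩, -, -⟩ := h n
    exact ⟨isVolume_ofMan h1, isBdryVolume_ofMan h2, V, hVo, hBV,
      fun x hx => inner_eq_ofMan (hV x hx)⟩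
  · exact tendsto_of_tendsto_of_tendsto_of_le_of_le tendsto_const_nhds hlim
      (fun n => zero_le) (fun n => (h n).2.2.2.1)
  · have h3 : Tendsto (fun n : ℕ => (C * ENNReal.ofReal (1 / ((n : ℝ) + 1)))⁻¹) atTop (𝓝 ⊤) := by
      have := tendsto_inv_iff.2 hlim
      rwa [ENNReal.inv_zero] at this
    refine tendsto_nhds_top_mono h3 (Eventually.of_forall fun n => ?_)
    exact (h n).2.2.2.2.trans (sigma_le 1 _ _ _)

end Pool.Agent.Y499.Stek
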